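import Pool.Agent.H458.AG.Tow

/-!
# Project AG (helper458): the tower for polynomials of odd degree (helper166)
-/

set_option autoImplicit false
set_option linter.all false

open Polynomial IsDedekindDomain NumberField WithZero
open scoped Classical IntermediateField

namespace Pool.Agent.H166.AG458

open Pool.Agent.H459.UF (below mem_below below_below below_below exists_above val_pow Agr
  agr_of_dns Dns dns_up dns_down dns_base agr_top Unr Cub fo fb fb_eq fb_map fb_self exists_poly
  cub_sub DQ coprime_of_ne norm_mk below_self fo_self ext_real unr_down unr_up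
  dns_of_surj exp_lt)
open Pool.Agent.H459.UT (TOK PKT DatT StpT quadT pk_isoT)
open Pool.Agent.N783.PQ (LocIm)
open Pool.Agent.N783.PF (IsGen rd fF GoodS Cg sp)
open Pool.Agent.H458.AG (TCG)

/-- The tower. -/
theorem tow (hI : Pool.Agent.H458.AG.S_IRQ) (hR : Pool.Agent.H458.AG.S_REAL1) :
    Pool.Agent.H458.AG.S_TOW := by
  intro F M _ _ _ _ _ Bw T f J 𝔮 H hTO n
  induction n with
  | zero =>
    intro K _ _ _ _ _ _ hn hT hK
    refine pk_isoT (K := K) ?_ hK
    intro z
    have h6 : z ∈ (⊥ : Subalgebra K M) := by
      rw [Subalgebra.bot_eq_top_of_finrank_eq_one (by rw [hn, pow_zero])]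
      exact Algebra.mem_top
    exact Algebra.mem_bot.1 h6
  | succ n ih =>
    intro K _ _ _ _ _ _ hn hT hK
    have hcard : Nat.card (M ≃ₐ[K] M) = 2 ^ (n + 1) := by
      rw [IsGalois.card_aut_eq_finrank, hn]
    obtain ⟨G, hG⟩ := Sylow.exists_subgroup_card_pow_prime (G := M ≃ₐ[K] M) 2 (n := n)
      (by rw [hcard]; exact pow_dvd_pow 2 (Nat.le_succ n))
    set K₁ := IntermediateField.fixedField G with hK₁
    have d1 : Module.finrank K₁ M = 2 ^ n := by
      rw [IntermediateField.finrank_fixedField_eq_card, hG]
    clear_value K₁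
    have d2 : Module.finrank K K₁ = 2 := by
      have h4 := Module.finrank_mul_finrank K K₁ M
      rw [hn, d1, pow_succ, mul_comm] at h4
      exact Nat.eq_of_mul_eq_mul_left (by positivity) h4
    haveI : IsScalarTower F K K₁ := inferInstance
    haveI : IsScalarTower F K₁ M := IsScalarTower.of_algebraMap_eq fun x => by
      rw [IsScalarTower.algebraMap_apply F K K₁, ← IsScalarTower.algebraMap_apply K K₁ M,
        ← IsScalarTower.algebraMap_apply F K M]
    have hone : ∀ σ : K →+* ℝ, (fb K f).map σ = (fF f).map (σ.comp (algebraMap F K)) := by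
      intro σ
      unfold fb
      rw [Polynomial.map_map]
    have hDQ : DQ F K₁ J 𝔮 := by
      intro q hq w hw
      obtain ⟨w', rfl⟩ := exists_above (K := K₁) M w
      refine dns_down (hT.q q hq w' ?_)
      rw [← hw, below_below]
    have hS : StpT K K₁ Bw f := by
      refine ⟨?_, ?_⟩
      · intro v hv
        rcases hT.unr v hv with h | h
        · exact Or.inl (unr_down h)
        · exact Or.inr h
      · intro σ p hirr hc hN hp
        rcases hT.real σ with ⟨ρ, hρ⟩ | hun
        · have h4 := hp (ρ.comp (algebraMap K₁ M)) (by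
            rw [RingHom.comp_assoc, ← IsScalarTower.algebraMap_eq, hρ])
          have e1 : ∀ r : K[X], (r.map (algebraMap K K₁)).map (ρ.comp (algebraMap K₁ M)) =
              r.map σ := by
            intro r
            rw [Polynomial.map_map, RingHom.comp_assoc, ← IsScalarTower.algebraMap_eq, hρ]
          rw [← fb_map K K₁ f, e1, e1] at h4
          exact h4
        · have hun' : ∃! e : ℝ, ((fb K f).map σ).eval e = 0 := by
            rw [hone]
            exact hun
          exact hR K (fb K f) ((H.mon.map _).map _) hirr σ hun' p hc hN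
    have hK1 := quadT (M := M) H hTO d2 hS hDQ hK
    refine ih K₁ d1 ⟨?_, hT.q, ?_⟩ hK1
    · intro w hw
      rcases hT.unr (below K w) (by rw [below_below]; exact hw) with h | h
      · exact Or.inl (unr_up h)
      · exact Or.inr (hI F K K₁ f H.mon H.odd d2.le w h)
    · intro σ
      rcases hT.real (σ.comp (algebraMap K K₁)) with ⟨ρ, hρ⟩ | h
      · exact Or.inl (ext_real ρ σ hρ)
      · refine Or.inr ?_
        rw [RingHom.comp_assoc, ← IsScalarTower.algebraMap_eq] at h
        exact h

end Pool.Agent.H166.AG458
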